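import Pool.Agent.Lib.MP_b5021c_nt.IfaceK2
import Pool.Agent.Lib.MP_b5021c_nt.K.H22.Coe
import Pool.Agent.Lib.MP_b5021c_nt.K.H70.Unr
import Pool.Agent.Lib.MP_b5021c_nt.H57.Tco

/-!
# MP_b5021c_nt, row LRE (helper48)

If `D_S = ± z^m D_∅` then `D_(T ∪ U) D_∅ = D_T D_U` for `T ⊆ S`, `U ∩ S = ∅`, so `D` factors.
-/

set_option autoImplicit false

set_option linter.unusedSectionVars false

namespace Pool.Agent.MP_b5021c_nt.Lre

open Polynomial Finset Pool.Agent.B5 Pool.Agent.MP_b5021c_nt

/-! ## Polynomials in one variable -/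

/-- A polynomial with unimodular roots which dominates another polynomial, of no larger degree, in the
disc divides it. -/
theorem quot (n : ℕ) : ∀ (f g : ℂ[X]), f ≠ 0 → f.natDegree = n → g.natDegree ≤ n →
    (∀ s, f.eval s = 0 → ‖s‖ = 1) → (∀ s : ℂ, ‖s‖ < 1 → ‖g.eval s‖ ≤ ‖f.eval s‖) →
    ∃ c : ℂ, g = C c * f := by
  induction n with
  | zero =>
    intro f g hf hfd hgd _ _
    have e1 := eq_C_of_natDegree_eq_zero hfd
    have e2 := eq_C_of_natDegree_le_zero hgd
    have h0 : f.coeff 0 ≠ 0 := by
      intro h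
      rw [h, C_0] at e1
      exact hf e1
    refine ⟨g.coeff 0 / f.coeff 0, ?_⟩
    rw [e1, e2, ← C_mul, coeff_C_zero, coeff_C_zero, div_mul_cancel₀ _ h0]
  | succ n ih =>
    intro f g hf hfd hgd hroot hle
    obtain ⟨s0, hs0⟩ : ∃ s0, f.eval s0 = 0 := by
      have hdeg : f.degree ≠ 0 := by
        rw [degree_eq_natDegree hf, hfd]
        exact_mod_cast Nat.succ_ne_zero n
      obtain ⟨z, hz⟩ := IsAlgClosed.exists_root f hdeg
      exact ⟨z, hz⟩
    have hn0 := hroot s0 hs0
    have hcl : ∀ s : ℂ, ‖s‖ ≤ 1 → ‖g.eval s‖ ≤ ‖f.eval s‖ := by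
      have hclosed : IsClosed {s : ℂ | ‖g.eval s‖ ≤ ‖f.eval s‖} :=
        isClosed_le (by fun_prop) (by fun_prop)
      intro s hs
      have hmem : s ∈ closure (Metric.ball (0 : ℂ) 1) := by
        rw [closure_ball (0 : ℂ) one_ne_zero]
        simpa using hs
      refine hclosed.closure_subset_iff.mpr ?_ hmem
      intro t ht
      exact hle t (by simpa using ht)
    have hg0 : g.eval s0 = 0 := by
      have := hcl s0 hn0.le
      rw [hs0, norm_zero] at this
      exact norm_le_zero_iff.mp this
    obtain ⟨f1, hf1⟩ := dvd_iff_isRoot.mpr hs0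
    obtain ⟨g1, hg1⟩ := dvd_iff_isRoot.mpr hg0
    have hf1n : f1 ≠ 0 := by
      rintro rfl
      rw [mul_zero] at hf1
      exact hf hf1
    have hd1 : f1.natDegree = n := by
      have h1 := congrArg natDegree hf1
      rw [natDegree_mul (X_sub_C_ne_zero s0) hf1n, natDegree_X_sub_C, hfd] at h1
      omega
    have hd2 : g1.natDegree ≤ n := by
      by_cases h0 : g1 = 0
      · rw [h0, natDegree_zero]
        exact Nat.zero_le _
      · have h1 := congrArg natDegree hg1
        rw [natDegree_mul (X_sub_C_ne_zero s0) h0, natDegree_X_sub_C] at h1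
        omega
    obtain ⟨c, hc⟩ := ih f1 g1 hf1n hd1 hd2
      (fun s hs => hroot s (by rw [hf1, eval_mul, hs, mul_zero]))
      (fun s hs => by
        have h1 := hle s hs
        rw [hf1, hg1, eval_mul, eval_mul, norm_mul, norm_mul] at h1
        have h2 : 0 < ‖(X - C s0).eval s‖ := by
          rw [norm_pos_iff, eval_sub, eval_X, eval_C, sub_ne_zero]
          rintro rfl
          rw [hn0] at hs
          exact lt_irrefl _ hs
        exact le_of_mul_le_mul_left h1 h2)
    refine ⟨c, ?_⟩
    rw [hg1, hc, hf1]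
    ring

/-- all factors of a product of numbers of modulus at least `1` with modulus `1` have modulus `1` -/
theorem all_one (m : Multiset ℂ) (h : ∀ z ∈ m, 1 ≤ ‖z‖) (hp : ‖m.prod‖ ≤ 1) : ∀ z ∈ m, ‖z‖ = 1 := by
  induction m using Multiset.induction_on with
  | empty => simp
  | cons a m ih =>
    rw [Multiset.prod_cons, norm_mul] at hp
    have h1 := h a (Multiset.mem_cons_self a m)
    have h2 := H22.one_le_prod m fun z hz => h z (Multiset.mem_cons_of_mem hz)
    have h3 : ‖a‖ = 1 := by nlinarith
    have h4 : ‖m.prod‖ ≤ 1 := by nlinarith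
    intro z hz
    rw [Multiset.mem_cons] at hz
    rcases hz with rfl | hz
    · exact h3
    · exact ih (fun z hz => h z (Multiset.mem_cons_of_mem hz)) h4 z hz

/-- no zeros in the disc and `|constant term| ≤ |leading coefficient|`: all zeros are unimodular -/
theorem roots_one (P : ℂ[X]) (h : ∀ s : ℂ, ‖s‖ < 1 → P.eval s ≠ 0)
    (hl : ‖P.coeff 0‖ ≤ ‖P.leadingCoeff‖) : ∀ s, P.eval s = 0 → ‖s‖ = 1 := by
  have h0 : P ≠ 0 := by
    rintro rfl
    exact h 0 (by simp) (by simp)
  rw [(IsAlgClosed.splits P).coeff_zero_eq_leadingCoeff_mul_prod_roots, norm_mul, norm_mul,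
    norm_pow, norm_neg, norm_one, one_pow, one_mul] at hl
  have hlc : 0 < ‖P.leadingCoeff‖ := norm_pos_iff.mpr (leadingCoeff_ne_zero.mpr h0)
  have h1 : ‖P.roots.prod‖ ≤ 1 := by
    by_contra hc
    rw [not_le] at hc
    nlinarith
  intro s hs
  refine all_one P.roots ?_ h1 s ((mem_roots h0).2 hs)
  intro z hz
  by_contra hlt
  rw [not_le] at hlt
  exact h z hlt ((mem_roots h0).1 hz)

/-! ## Multi-affine polynomials -/

section Multi

variable {ι : Type} [Fintype ι] [DecidableEq ι]

/-- Splitting a sum over all subsets. -/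
theorem split {M : Type} [AddCommMonoid M] (S : Finset ι) (F : Finset ι → M) :
    ∑ W : Finset ι, F W = ∑ V ∈ Sᶜ.powerset, ∑ T ∈ S.powerset, F (T ∪ V) := by
  rw [← sum_product']
  symm
  refine sum_nbij' (fun x => x.2 ∪ x.1) (fun W => (W \ S, W ∩ S)) ?_ ?_ ?_ ?_ ?_
  · intro x _
    exact mem_univ _
  · intro W _
    rw [mem_product, mem_powerset, mem_powerset]
    refine ⟨?_, inter_subset_right⟩
    intro i hi
    rw [mem_compl]
    exact (mem_sdiff.mp hi).2
  · intro x hx
    rw [mem_product, mem_powerset, mem_powerset] at hx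
    obtain ⟨h1, h2⟩ := hx
    apply Prod.ext
    · ext i
      have a1 := @h1 i
      have a2 := @h2 i
      simp only [mem_sdiff, mem_union, mem_compl] at a1 ⊢
      tauto
    · ext i
      have a1 := @h1 i
      have a2 := @h2 i
      simp only [mem_inter, mem_union, mem_compl] at a1 ⊢
      tauto
  · intro W _
    ext i
    simp only [mem_union, mem_inter, mem_sdiff]
    tauto
  · intro x _
    rfl

/-- A multi-affine polynomial which vanishes on the torus is zero. -/
theorem torus (S : Finset ι) : ∀ b : Finset ι → ℂ,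
    (∀ u : ι → ℂ, (∀ i, ‖u i‖ = 1) → ∑ T ∈ S.powerset, b T * ∏ i ∈ T, u i = 0) →
    ∀ T, T ⊆ S → b T = 0 := by
  induction S using Finset.induction_on with
  | empty =>
    intro b hb T hT
    have h1 := hb (fun _ => 1) (fun _ => norm_one)
    rw [powerset_empty, sum_singleton, prod_empty, mul_one] at h1
    rw [subset_empty.mp hT]
    exact h1
  | insert i S hi ih =>
    intro b hb
    have key : ∀ c : ℂ, ‖c‖ = 1 → ∀ T, T ⊆ S → b T + c * b (insert i T) = 0 := by
      intro c hc
      refine ih (fun T => b T + c * b (insert i T)) ?_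
      intro u hu
      have h1 := hb (Function.update u i c) (by
        intro j
        by_cases hj : j = i
        · subst hj
          rw [Function.update_self]
          exact hc
        · rw [Function.update_of_ne hj]
          exact hu j)
      rw [sum_powerset_insert hi, ← sum_add_distrib] at h1
      rw [← h1]
      refine sum_congr rfl fun T hT => ?_
      rw [mem_powerset] at hT
      have hiT : i ∉ T := fun h => hi (hT h)
      have e1 : ∏ j ∈ T, Function.update u i c j = ∏ j ∈ T, u j := by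
        refine prod_congr rfl fun j hj => ?_
        rw [Function.update_of_ne]
        rintro rfl
        exact hiT hj
      rw [prod_insert hiT, e1, Function.update_self]
      ring
    have k1 := key 1 norm_one
    have k2 := key (-1) (by rw [norm_neg, norm_one])
    have both : ∀ T, T ⊆ S → b T = 0 ∧ b (insert i T) = 0 := by
      intro T hT
      have a1 := k1 T hT
      have a2 := k2 T hT
      constructor
      · linear_combination (a1 + a2) / 2
      · linear_combination (a1 - a2) / 2
    intro T hT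
    by_cases hiT : i ∈ T
    · have h1 : T.erase i ⊆ S := by
        intro j hj
        rw [mem_erase] at hj
        exact (mem_insert.mp (hT hj.2)).resolve_left hj.1
      have h2 := (both _ h1).2
      rwa [insert_erase hiT] at h2
    · refine (both T ?_).1
      intro j hj
      refine (mem_insert.mp (hT hj)).resolve_left ?_
      rintro rfl
      exact hiT hj

/-- The polynomial `s ↦ ∑_{T ⊆ S} p_{T ∪ V} ∏_{i ∈ T} (u_i s)`. -/
noncomputable def fp (p : Finset ι → ℂ) (S : Finset ι) (u : ι → ℂ) (V : Finset ι) : ℂ[X] :=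
  ∑ T ∈ S.powerset, C (p (T ∪ V) * ∏ i ∈ T, u i) * X ^ T.card

theorem fp_eval (p : Finset ι → ℂ) (S : Finset ι) (u : ι → ℂ) (V : Finset ι) (s : ℂ) :
    (fp p S u V).eval s = ∑ T ∈ S.powerset, p (T ∪ V) * ∏ i ∈ T, (u i * s) := by
  rw [fp, eval_finsetSum]
  refine sum_congr rfl fun T _ => ?_
  rw [eval_mul, eval_C, eval_pow, eval_X, prod_mul_distrib, prod_const]
  ring

theorem fp_coeff (p : Finset ι → ℂ) (S : Finset ι) (u : ι → ℂ) (V : Finset ι) (n : ℕ) :
    (fp p S u V).coeff n = ∑ T ∈ S.powerset, if T.card = n then p (T ∪ V) * ∏ i ∈ T, u i else 0 := by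
  rw [fp, finsetSum_coeff]
  refine sum_congr rfl fun T _ => ?_
  rw [coeff_C_mul, coeff_X_pow]
  by_cases h : T.card = n
  · rw [if_pos h, if_pos h.symm, mul_one]
  · rw [if_neg h, if_neg (Ne.symm h), mul_zero]

theorem fp_zero (p : Finset ι → ℂ) (S : Finset ι) (u : ι → ℂ) (V : Finset ι) :
    (fp p S u V).coeff 0 = p V := by
  rw [fp_coeff, sum_eq_single_of_mem ∅ (empty_mem_powerset S)]
  · rw [if_pos card_empty, empty_union, prod_empty, mul_one]
  · intro T _ hT
    rw [if_neg]
    rw [card_eq_zero]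
    exact hT

theorem fp_top (p : Finset ι → ℂ) (S : Finset ι) (u : ι → ℂ) (V : Finset ι) :
    (fp p S u V).coeff S.card = p (S ∪ V) * ∏ i ∈ S, u i := by
  rw [fp_coeff, sum_eq_single_of_mem S (mem_powerset_self S)]
  · rw [if_pos rfl]
  · intro T hT hTS
    rw [if_neg]
    intro hcard
    exact hTS (eq_of_subset_of_card_le (mem_powerset.1 hT) hcard.ge)

theorem fp_deg (p : Finset ι → ℂ) (S : Finset ι) (u : ι → ℂ) (V : Finset ι) :
    (fp p S u V).natDegree ≤ S.card := by
  rw [natDegree_le_iff_coeff_eq_zero]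
  intro n hn
  rw [fp_coeff]
  refine sum_eq_zero fun T hT => ?_
  rw [if_neg]
  have := card_le_card (mem_powerset.1 hT)
  omega

/-- The factorisation of a polydisc-free multi-affine polynomial with `|p_S| = |p_∅|`. -/
theorem fac (p : Finset ι → ℂ) (hp : ∀ w : ι → ℂ, (∀ i, ‖w i‖ < 1) → ∑ S : Finset ι, p S * ∏ i ∈ S, w i ≠ 0)
    (S : Finset ι) (hS : ‖p ∅‖ ≤ ‖p S‖) (T U : Finset ι) (hT : T ⊆ S) (hU : U ⊆ Sᶜ) :
    p (T ∪ U) * p ∅ = p U * p T := by
  have hp0 : p ∅ ≠ 0 := by
    have h1 := hp (fun _ => 0) (fun _ => by rw [norm_zero]; exact one_pos)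
    rw [sum_eq_single ∅] at h1
    · rwa [prod_empty, mul_one] at h1
    · intro V _ hV
      obtain ⟨i, hi⟩ := nonempty_iff_ne_empty.mpr hV
      rw [prod_eq_zero hi rfl, mul_zero]
    · intro h
      exact absurd (mem_univ _) h
  -- the domination
  have dom : ∀ (u : ι → ℂ), (∀ i, ‖u i‖ = 1) → ∀ s : ℂ, ‖s‖ < 1 →
      ∀ V, V ⊆ Sᶜ → ‖(fp p S u V).eval s‖ ≤ ‖(fp p S u ∅).eval s‖ := by
    intro u hu s hs V hV
    have h1 := H22.coe ι (fun V => if V ⊆ Sᶜ then (fp p S u V).eval s else 0) (by
      intro w hw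
      have h2 := hp (fun i => if i ∈ S then u i * s else w i) (by
        intro i
        split_ifs
        · rw [norm_mul, hu i, one_mul]
          exact hs
        · exact hw i)
      rw [split S] at h2
      have h3 : ∑ V : Finset ι, (if V ⊆ Sᶜ then (fp p S u V).eval s else 0) * ∏ i ∈ V, w i =
          ∑ V ∈ Sᶜ.powerset, ((fp p S u V).eval s) * ∏ i ∈ V, w i := by
        rw [← sum_subset (subset_univ (Sᶜ.powerset))]
        · refine sum_congr rfl fun V hV => ?_
          rw [mem_powerset] at hV
          rw [if_pos hV]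
        · intro V _ hV
          rw [mem_powerset] at hV
          rw [if_neg hV, zero_mul]
      rw [h3]
      convert h2 using 1
      refine sum_congr rfl fun V hV => ?_
      rw [fp_eval, sum_mul]
      refine sum_congr rfl fun T hT => ?_
      rw [mem_powerset] at hT hV
      have hdis : Disjoint T V := by
        rw [disjoint_left]
        intro i hi hi2
        exact (mem_compl.mp (hV hi2)) (hT hi)
      rw [prod_union hdis, mul_assoc]
      congr 2
      · refine prod_congr rfl fun i hi => ?_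
        rw [if_pos (hT hi)]
      · refine prod_congr rfl fun i hi => ?_
        rw [if_neg (mem_compl.mp (hV hi))]) V
    simp only [if_pos hV, if_pos (empty_subset Sᶜ)] at h1
    exact h1
  -- the quotient is constant
  have con : ∀ (u : ι → ℂ), (∀ i, ‖u i‖ = 1) → fp p S u U = C (p U / p ∅) * fp p S u ∅ := by
    intro u hu
    have hprod : ‖∏ i ∈ S, u i‖ = 1 := by
      rw [norm_prod]
      exact prod_eq_one fun i _ => hu i
    have hne : fp p S u ∅ ≠ 0 := by
      intro h
      have h1 := fp_zero p S u ∅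
      rw [h, coeff_zero] at h1
      exact hp0 h1.symm
    have htop : (fp p S u ∅).coeff S.card ≠ 0 := by
      rw [fp_top, union_empty]
      intro h
      have h2 := congrArg norm h
      rw [norm_mul, hprod, mul_one, norm_zero] at h2
      rw [h2] at hS
      exact hp0 (norm_le_zero_iff.mp hS)
    have hdeg : (fp p S u ∅).natDegree = S.card :=
      le_antisymm (fp_deg p S u ∅) (le_natDegree_of_ne_zero htop)
    have hfree : ∀ s : ℂ, ‖s‖ < 1 → (fp p S u ∅).eval s ≠ 0 := by
      intro s hs h
      have h2 := hp (fun i => if i ∈ S then u i * s else 0) (by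
        intro i
        split_ifs
        · rw [norm_mul, hu i, one_mul]
          exact hs
        · rw [norm_zero]
          exact one_pos)
      apply h2
      refine Eq.trans ?_ h
      rw [fp_eval, ← sum_subset (subset_univ (S.powerset))]
      · refine sum_congr rfl fun T hT => ?_
        rw [mem_powerset] at hT
        rw [union_empty]
        congr 1
        refine prod_congr rfl fun i hi => ?_
        rw [if_pos (hT hi)]
      · intro V _ hV
        rw [mem_powerset, not_subset] at hV
        obtain ⟨i, hi, hiS⟩ := hV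
        rw [prod_eq_zero hi, mul_zero]
        rw [if_neg hiS]
    have hroots := roots_one (fp p S u ∅) hfree (by
      rw [fp_zero, leadingCoeff, hdeg, fp_top, union_empty, norm_mul, hprod, mul_one]
      exact hS)
    obtain ⟨c, hc⟩ := quot S.card (fp p S u ∅) (fp p S u U) hne hdeg (fp_deg p S u U) hroots
      (fun s hs => dom u hu s hs U hU)
    have hc2 : c = p U / p ∅ := by
      have h1 := congrArg (fun q : ℂ[X] => q.coeff 0) hc
      simp only [coeff_C_mul, fp_zero] at h1
      rw [eq_div_iff hp0]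
      exact h1.symm
    rw [← hc2]
    exact hc
  have h1 := torus S (fun T => p (T ∪ U) - p U / p ∅ * p T) (by
    intro u hu
    have h2 := congrArg (fun q : ℂ[X] => q.eval 1) (con u hu)
    simp only [eval_mul, eval_C, fp_eval, mul_one, union_empty] at h2
    rw [← sub_eq_zero, mul_sum, ← sum_sub_distrib] at h2
    rw [← h2]
    refine sum_congr rfl fun T _ => ?_
    ring) T hT
  have h2 : p (T ∪ U) - p U / p ∅ * p T = 0 := h1
  field_simp at h2
  linear_combination h2

end Multi

/-! ## Integral polynomials -/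

/-- An integral polynomial which vanishes on the unit circle is zero. -/
theorem zero_of_circle (p : ℤ[X]) (h : ∀ z : ℂ, ‖z‖ = 1 → pv p z = 0) : p = 0 := by
  have hinf : Set.Infinite {z : ℂ | ‖z‖ = 1} := by
    have hinj : Function.Injective (fun n : ℕ => Complex.exp (((1 : ℝ) / (n + 1) : ℝ) * Complex.I)) := by
      intro a b hab
      have h1 : Complex.exp (((1 : ℝ) / (a + 1) : ℝ) * Complex.I) =
          Complex.exp (((1 : ℝ) / (b + 1) : ℝ) * Complex.I) := hab
      have bd : ∀ n : ℕ, (0 : ℝ) < 1 / (n + 1) ∧ (1 : ℝ) / (n + 1) ≤ 1 := by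
        intro n
        constructor
        · positivity
        · rw [div_le_one (by positivity)]
          linarith [(Nat.cast_nonneg n : (0 : ℝ) ≤ n)]
      have h2 : (1 : ℝ) / (a + 1) = 1 / (b + 1) := by
        have ha := Complex.arg_exp_mul_I ((1 : ℝ) / (a + 1))
        have hb := Complex.arg_exp_mul_I ((1 : ℝ) / (b + 1))
        rw [toIocMod_eq_self _ |>.mpr ⟨by linarith [(bd a).1, Real.pi_pos], by
          linarith [(bd a).2, Real.pi_gt_three]⟩] at ha
        rw [toIocMod_eq_self _ |>.mpr ⟨by linarith [(bd b).1, Real.pi_pos], by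
          linarith [(bd b).2, Real.pi_gt_three]⟩] at hb
        rw [← ha, ← hb, h1]
      have h3 : ((a : ℝ) + 1) = b + 1 := by
        have ha : (a : ℝ) + 1 ≠ 0 := by positivity
        have hb : (b : ℝ) + 1 ≠ 0 := by positivity
        field_simp at h2
        linarith
      exact_mod_cast add_right_cancel h3
    refine Set.infinite_of_injective_forall_mem hinj ?_
    intro n
    exact Complex.norm_exp_ofReal_mul_I _
  have h1 : (p.map (Int.castRingHom ℂ)) = 0 := by
    apply eq_zero_of_infinite_isRoot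
    refine hinf.mono ?_
    intro z hz
    have h2 := h z hz
    rw [pv] at h2
    change eval z (p.map (Int.castRingHom ℂ)) = 0
    rw [← h2, aeval_def, eval_map]
    rfl
  exact (Polynomial.map_eq_zero_iff (RingHom.injective_int (Int.castRingHom ℂ))).mp h1

/-- `q ∣ x_i y_j` for all `i`, `j`, and `q` is one of the `x_i`. -/
theorem gcdsplit {α : Type} [CommMonoidWithZero α] [NormalizedGCDMonoid α] {I J : Type} (s : Finset I)
    (t : Finset J) (x : I → α) (y : J → α) (q : α) (hq : q ≠ 0) (i0 : I) (hi0 : i0 ∈ s) (hx : x i0 = q)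
    (h : ∀ i ∈ s, ∀ j ∈ t, q ∣ x i * y j) :
    ∃ a b, q = a * b ∧ (∀ i ∈ s, a ∣ x i) ∧ ∀ j ∈ t, b ∣ y j := by
  obtain ⟨b, hb⟩ : s.gcd x ∣ q := hx ▸ gcd_dvd hi0
  refine ⟨s.gcd x, b, hb, fun i hi => gcd_dvd hi, fun j hj => ?_⟩
  have ha : s.gcd x ≠ 0 := by
    intro h0
    rw [h0, zero_mul] at hb
    exact hq hb
  have h1 : q ∣ s.gcd fun i => x i * y j := dvd_gcd fun i hi => h i hi j hj
  have h2 : q ∣ s.gcd x * y j := h1.trans (gcd_mul_right' s x (y j)).dvd
  rw [hb] at h2
  exact (mul_dvd_mul_iff_left ha).mp h2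

theorem ind_union {ι : Type} [DecidableEq ι] (T U : Finset ι) (h : Disjoint T U) :
    (ind (T ∪ U) : ι → ℤ) = ind T + ind U := by
  funext i
  simp only [ind, Pi.add_apply, mem_union]
  by_cases h1 : i ∈ T
  · have h2 : i ∉ U := disjoint_left.mp h h1
    simp [h1, h2]
  · simp [h1]

/-- Row LRE. -/
theorem lre : LreS := by
  intro ι _ _ D θ S m ε hfree hone hirr hports hSne hε hDS
  obtain ⟨hθ, hQ0, -⟩ := hone
  have hQ : D ∅ ≠ 0 := by
    intro h
    rw [h, coeff_zero] at hQ0
    exact zero_ne_one hQ0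
  -- the relation
  have rel : ∀ T U : Finset ι, T ⊆ S → U ⊆ Sᶜ → D (T ∪ U) * D ∅ = D U * D T := by
    intro T U hT hU
    rw [← sub_eq_zero]
    apply zero_of_circle
    intro z hz
    have h1 := fac (fun V => pv (D V) z) (fun w hw => hfree z w hz hw) S (by
      show ‖pv (D ∅) z‖ ≤ ‖pv (D S) z‖
      rw [hDS, pv, pv, map_mul, map_mul, norm_mul, norm_mul, map_pow, aeval_X, norm_pow, hz, one_pow,
        mul_one]
      have h2 : ‖(aeval z) (C ε : ℤ[X])‖ = 1 := by
        rw [aeval_C]
        rcases hε with h | h <;> rw [h] <;> simp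
      rw [h2, one_mul]) T U hT hU
    have h2 : pv (D (T ∪ U)) z * pv (D ∅) z = pv (D U) z * pv (D T) z := h1
    rw [pv, pv, pv, pv] at h2
    rw [pv, map_sub, map_mul, map_mul, h2, sub_self]
  -- splitting the content
  obtain ⟨inst⟩ : Nonempty (NormalizedGCDMonoid ℤ[X]) := ⟨UniqueFactorizationMonoid.toNormalizedGCDMonoid _⟩
  obtain ⟨a, b, hab, ha, hb⟩ := gcdsplit S.powerset Sᶜ.powerset D D (D ∅) hQ ∅ (empty_mem_powerset S) rfl
    (fun T hT U hU => ⟨D (T ∪ U), by
      rw [mul_comm (D T), ← rel T U (mem_powerset.mp hT) (mem_powerset.mp hU), mul_comm]⟩)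
  have ha0 : a ≠ 0 := by
    rintro rfl
    rw [zero_mul] at hab
    exact hQ hab
  have hb0 : b ≠ 0 := by
    rintro rfl
    rw [mul_zero] at hab
    exact hQ hab
  choose! P hP using ha
  choose! P' hP' using hb
  have hmul : ∀ T U : Finset ι, T ⊆ S → U ⊆ Sᶜ → D (T ∪ U) = P T * P' U := by
    intro T U hT hU
    have h1 := rel T U hT hU
    rw [hP T (mem_powerset.mpr hT), hP' U (mem_powerset.mpr hU)] at h1
    have h2 : (a * b) * D (T ∪ U) = (a * b) * (P T * P' U) := by
      rw [← hab, mul_comm, h1, hab]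
      ring
    exact mul_left_cancel₀ (mul_ne_zero ha0 hb0) h2
  have hprod : toA D = toA (fun T => if T ⊆ S then P T else 0) * toA (fun U => if U ⊆ Sᶜ then P' U else 0) := by
    rw [toA, toA, toA, sum_mul_sum, split S]
    have e1 : ∀ (F : Finset ι → A (ι → ℤ)) (W : Finset ι), (∀ V, ¬ V ⊆ W → F V = 0) →
        ∑ V : Finset ι, F V = ∑ V ∈ W.powerset, F V := by
      intro F W hF
      symm
      apply sum_subset (subset_univ _)
      intro V _ hV
      rw [mem_powerset] at hV
      exact hF V hV
    rw [sum_comm, e1 _ S]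
    · refine sum_congr rfl fun T hT => ?_
      rw [mem_powerset] at hT
      rw [e1 _ Sᶜ]
      · refine sum_congr rfl fun U hU => ?_
        rw [mem_powerset] at hU
        rw [if_pos hT, if_pos hU, AddMonoidAlgebra.single_mul_single, hmul T U hT hU, map_mul,
          ind_union T U]
        rw [disjoint_left]
        intro i hi hi2
        exact (mem_compl.mp (hU hi2)) (hT hi)
      · intro V hV
        rw [if_neg hV, map_zero, AddMonoidAlgebra.single_zero, mul_zero]
    · intro V hV
      apply sum_eq_zero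
      intro U _
      rw [if_neg hV, map_zero, AddMonoidAlgebra.single_zero, zero_mul]
  -- units
  have hunit : ∀ (E : Finset ι → ℤ[X]) (V : Finset ι), E ∅ ≠ 0 → E V ≠ 0 → IsUnit (toA E) → V = ∅ := by
    intro E V h0 hV hu
    obtain ⟨v, hv⟩ := isUnit_iff_exists_inv.mp hu
    obtain ⟨c, d, -, hcd⟩ := Unr.mono_of_mul_one (toA E) v hv
    have h1 : ∀ W, E W ≠ 0 → ind W = c := by
      intro W hW
      by_contra hne
      have h2 := (tco ι E).1 W
      rw [hcd, AddMonoidAlgebra.coeff_single, Finsupp.single_apply, if_neg (Ne.symm hne)] at h2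
      exact hW (Polynomial.toLaurent_eq_zero.mp h2.symm)
    exact tco_ind_inj ((h1 V hV).trans (h1 ∅ h0).symm)
  have hP0 : P ∅ ≠ 0 := by
    intro h
    have h1 := hP ∅ (empty_mem_powerset S)
    rw [h, mul_zero] at h1
    exact hQ h1
  have hP'0 : P' ∅ ≠ 0 := by
    intro h
    have h1 := hP' ∅ (empty_mem_powerset _)
    rw [h, mul_zero] at h1
    exact hQ h1
  have hDS0 : D S ≠ 0 := by
    rw [hDS]
    refine mul_ne_zero (mul_ne_zero ?_ (pow_ne_zero _ X_ne_zero)) hQ
    rw [Ne, C_eq_zero]
    rcases hε with h | h <;> rw [h] <;> norm_num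
  rcases hirr.isUnit_or_isUnit hprod with hu | hu
  · exfalso
    apply hSne
    refine hunit _ S ?_ ?_ hu
    · show (if (∅ : Finset ι) ⊆ S then P ∅ else 0) ≠ 0
      rw [if_pos (empty_subset S)]
      exact hP0
    · show (if S ⊆ S then P S else 0) ≠ 0
      rw [if_pos (Subset.refl S)]
      intro h
      apply hDS0
      rw [hP S (mem_powerset_self S), h, mul_zero]
  · rw [eq_univ_iff_forall]
    intro i
    by_contra hi
    obtain ⟨T, hiT, hDT⟩ := hports i
    have hd : (T ∩ S) ∪ (T \ S) = T := by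
      ext j
      simp only [mem_union, mem_inter, mem_sdiff]
      tauto
    have hs1 : T \ S ⊆ Sᶜ := fun j hj => mem_compl.mpr (mem_sdiff.mp hj).2
    have h1 := hmul (T ∩ S) (T \ S) inter_subset_right hs1
    rw [hd] at h1
    have h2 : T \ S = ∅ := by
      refine hunit _ (T \ S) ?_ ?_ hu
      · show (if (∅ : Finset ι) ⊆ Sᶜ then P' ∅ else 0) ≠ 0
        rw [if_pos (empty_subset _)]
        exact hP'0
      · show (if T \ S ⊆ Sᶜ then P' (T \ S) else 0) ≠ 0
        rw [if_pos hs1]
        intro h
        rw [h, mul_zero] at h1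
        exact hDT h1
    have h3 : i ∈ T \ S := mem_sdiff.mpr ⟨hiT, hi⟩
    rw [h2] at h3
    exact notMem_empty i h3

end Pool.Agent.MP_b5021c_nt.Lre
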